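import Pool.Agent.X275.BN.Tree

/-!
# The lower bn-independence broadcast number and spanning trees (MP_7de179_co, Q1, positive answer)

For every finite connected graph `G` the lower bn-independence broadcast number `i_bn(G)` (the minimum
cost of a maximal boundary independent broadcast) is the minimum of `i_bn(T)` over the spanning trees
`T` of `G`.

Idea: `i_bn(G)` is also the minimum cost of a function `f` which is dominating and has the *overlap
property*: every broadcasting vertex `u` has another broadcasting vertex `v` with
`d(u,v) ≤ f u + f v`, unless `u` is the only one. (Two overlapping balls which violate boundary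
independence are merged into one ball whose radius is the sum of the radii, with a suitable centre.)
Both properties are inherited by supergraphs, and for a bn-independent `f` they are kept by a suitable
spanning tree.
-/

open SimpleGraph Finset

namespace Pool.Agent.Results.MP_7de179_co.SpanningTrees

open Pool.Agent.X275.BN

variable {V : Type*} [Fintype V]

lemma ibn_le {G : SimpleGraph V} {f : V → ℕ} (hf : MaxBn G f) : ibn G ≤ ∑ v, f v :=
  Nat.sInf_le ⟨f, hf, rfl⟩

lemma exists_ibn {G : SimpleGraph V} (hG : G.Connected) :
    ∃ f : V → ℕ, MaxBn G f ∧ ∑ v, f v = ibn G := by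
  classical
  refine Nat.sInf_mem (s := {k | ∃ f : V → ℕ, MaxBn G f ∧ ∑ v, f v = k}) ?_
  rcases subsingleton_or_nontrivial V with hV | hV
  · refine ⟨_, fun _ => 1, ⟨⟨fun h => absurd h (not_nontrivial V), fun _ _ => rfl⟩, ?_, ?_⟩, rfl⟩
    · intro x u v huv
      exact absurd (Subsingleton.elim u v) huv
    · intro g hg _ _
      funext v
      exact hg.2 hV v
  · have h := exists_maxBn hG _ (fun x => ecc G x + 1) rfl
      (fun x => ⟨x, Nat.succ_pos _, by simp⟩) (fun u _ => by
        obtain ⟨v, hv⟩ := exists_ne u
        exact Or.inl ⟨v, hv, Nat.succ_pos _, by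
          have := dist_le_ecc G u v
          show G.dist u v ≤ (ecc G u + 1) + (ecc G v + 1)
          omega⟩)
    obtain ⟨g, hg, -⟩ := h
    exact ⟨_, g, hg, rfl⟩

/-- The lower bn-independence broadcast number does not increase when edges are added. -/
lemma ibn_mono {G T : SimpleGraph V} (h : T ≤ G) (hT : T.Connected) : ibn G ≤ ibn T := by
  classical
  have hG : G.Connected := hT.mono h
  obtain ⟨f, hf, hs⟩ := exists_ibn hT
  rcases subsingleton_or_nontrivial V with hV | hV
  · have : T = G := le_antisymm h (fun x y hxy => absurd (Subsingleton.elim x y) hxy.ne)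
    rw [this]
  · obtain ⟨g, hg, hgs⟩ := exists_maxBn hG _ f rfl ((hf.dom hT).mono h hT) ((hf.ovl hT).mono h hT)
    exact (ibn_le hg).trans (hgs.trans hs.le)

/-- **MP_7de179_co, Q1 (full positive answer).** For every finite connected simple graph `G`: the
lower bn-independence broadcast number `ibn G` is attained by a maximal bn-independent broadcast, and
it is the minimum of the numbers `ibn T` over all spanning trees `T` of `G`. -/
theorem result (G : SimpleGraph V) (hG : G.Connected) :
    IsLeast {k | ∃ f : V → ℕ, MaxBn G f ∧ ∑ v, f v = k} (ibn G) ∧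
      IsLeast {k | ∃ T : SimpleGraph V, T ≤ G ∧ T.IsTree ∧ ibn T = k} (ibn G) := by
  classical
  refine ⟨⟨exists_ibn hG, ?_⟩, ?_, ?_⟩
  · rintro k ⟨f, hf, rfl⟩
    exact ibn_le hf
  · rcases subsingleton_or_nontrivial V with hV | hV
    · have := hG.nonempty
      exact ⟨G, le_rfl, IsTree.of_subsingleton, rfl⟩
    · obtain ⟨f, hf, hs⟩ := exists_ibn hG
      obtain ⟨T, hTG, hT, hTd, hTo⟩ := exists_tree hG (hf.dom hG) (hf.ovl hG) hf.2.1
      obtain ⟨g, hg, hgs⟩ := exists_maxBn hT.1 _ f rfl hTd hTo
      exact ⟨T, hTG, hT, le_antisymm ((ibn_le hg).trans (hgs.trans hs.le)) (ibn_mono hTG hT.1)⟩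
  · rintro k ⟨T, hTG, hT, rfl⟩
    exact ibn_mono hTG hT.1

end Pool.Agent.Results.MP_7de179_co.SpanningTrees
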